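import Pool.Agent.H19.P5.Lin

/-!
# P5: the lines over a closed frame, the statement (LIN)
-/

set_option autoImplicit false

namespace Pool.P5N

open Finset Real MvPolynomial
open Pool.Agent.H49.Ent Pool.Agent.H32.Dense Pool.STK
open Pool.STAT Pool.MIC.Frm Pool.FRM Pool.P4L
open Pool.P5 (sl gr sl0 sl1 Gam3 Stp Plc b1 b2)
open Pool.P4 (t0 rt pp PthC FraC bb ze zt z0 be GoodS FrP)

theorem sum4 (a b c e s : ℝ) (f : ℝ → ℝ) :
    ∑ k, (![a, b, c, e] : Fin 4 → ℝ) k * f (nd s k) =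
      a * f 0 + b * f (1 / 2) + c * f 1 + e * f s := by
  rw [Fin.sum_univ_four]
  rfl

theorem W0 (s : ℝ) : Wt (nd s) 20 0 ![1, 0, 0, 0] := wt_of (by norm_num)
  (by simp only [abs_one, abs_zero]; norm_num) (by omega) (by omega) (by omega)

theorem W1 (s : ℝ) : Wt (nd s) 20 1 ![-3, 4, -1, 0] := wt_of (by norm_num)
  (by simp only [abs_neg, abs_one, abs_zero, Nat.abs_ofNat]; norm_num) (fun _ => by norm_num)
  (by omega) (by omega)

theorem W2 (s : ℝ) : Wt (nd s) 20 2 ![2, -4, 2, 0] := wt_of (by norm_num)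
  (by simp only [abs_neg, abs_zero, Nat.abs_ofNat]; norm_num) (fun _ => by norm_num)
  (fun _ => by norm_num) (by omega)

theorem X1 (s : ℝ) : Wt (nd s) 20 1 ![-1, 0, 0, 1] := wt_of (by norm_num)
  (by simp only [abs_neg, abs_one, abs_zero]; norm_num) (fun _ => by norm_num)
  (by omega) (by omega)

theorem X2 {s : ℝ} (s0 : 0 ≤ s) (s1 : s ≤ 1) :
    Wt (nd s) 20 2 ![-1 + 3 * s, -(4 * s), s, 1] := by
  refine wt_of (by norm_num) ?_ (fun _ => by ring) (fun _ => by ring) (by omega)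
  have h1 : |-1 + 3 * s| ≤ 2 := abs_le.2 ⟨by linarith, by linarith⟩
  have h2 : |-(4 * s)| ≤ 4 := abs_le.2 ⟨by linarith, by linarith⟩
  have h3 : |s| ≤ 1 := abs_le.2 ⟨by linarith, by linarith⟩
  rw [abs_one]
  linarith

theorem X3 {s : ℝ} (s0 : 0 ≤ s) (s1 : s ≤ 1) :
    Wt (nd s) 20 3 ![-1 + 3 * s - 2 * s ^ 2, -(4 * s) + 4 * s ^ 2, s - 2 * s ^ 2, 1] := by
  refine wt_of (by norm_num) ?_ (fun _ => by ring) (fun _ => by ring) (fun _ => by ring)
  have q0 : 0 ≤ s ^ 2 := by positivity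
  have q1 : s ^ 2 ≤ 1 := by nlinarith
  have h1 : |-1 + 3 * s - 2 * s ^ 2| ≤ 3 := abs_le.2 ⟨by linarith, by linarith⟩
  have h2 : |-(4 * s) + 4 * s ^ 2| ≤ 4 := abs_le.2 ⟨by linarith, by linarith⟩
  have h3 : |s - 2 * s ^ 2| ≤ 2 := abs_le.2 ⟨by linarith, by linarith⟩
  rw [abs_one]
  linarith

/-- **(LIN)** -/
theorem lin_stmt : Pool.P5.LinStmt := by
  intro n K K' lam gam C₁ C _ hC₁ hC hlam
  obtain ⟨C', hC', H⟩ := lin_gen n K K' lam gam C₁ C hC₁ hC hlam
  refine ⟨C', hC', fun y r r2 r' r'' a M => ⟨1, ?_⟩⟩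
  intro J a₀ w₀ z i j D q κ hz hPl hO P ω hω hG hFP
  obtain ⟨hb, H1⟩ := H y r r2 r' r'' a M J a₀ w₀ z i j D q κ hz hPl hO P ω hω hG hFP
  have hS := hPl.stp
  have g3 := hS.g3
  have i2 := hPl.i2
  have y1 := hPl.y1
  refine ⟨fun l _ hl => hb l hl, fun w hw1 hw2 => ?_⟩
  obtain ⟨r0, r1, hze, hbd, hone, htwo⟩ := H1 w hw1 hw2
  -- the values at the nodes
  have a0 : ∀ (ω' : D.Ω) (l : ℕ), t0 D J w ω' = t0 D J w ω →
      z0 D J w i j r (fun _ => P) ω' l =
        zt D i j r (fun _ => P) (t0 D J w ω + 0 * (1 / 2 ^ w)) ω' l := fun ω' l h => by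
    unfold z0
    rw [h, zero_mul, add_zero]
  have a2 : ∀ (ω' : D.Ω) (l : ℕ), t0 D J w ω' = t0 D J w ω →
      b2 D J w i j r (fun _ => P) ω' l =
        2 * zt D i j r (fun _ => P) (t0 D J w ω + 0 * (1 / 2 ^ w)) ω' l +
        (-4) * zt D i j r (fun _ => P) (t0 D J w ω + 1 / 2 * (1 / 2 ^ w)) ω' l +
        2 * zt D i j r (fun _ => P) (t0 D J w ω + 1 * (1 / 2 ^ w)) ω' l := fun ω' l h => by
    unfold b2 z0
    rw [h, zero_mul, add_zero, one_mul]
    ring
  have a1 : ∀ (ω' : D.Ω) (l : ℕ), t0 D J w ω' = t0 D J w ω →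
      b1 D J w i j r (fun _ => P) ω' l =
        (-3) * zt D i j r (fun _ => P) (t0 D J w ω + 0 * (1 / 2 ^ w)) ω' l +
        4 * zt D i j r (fun _ => P) (t0 D J w ω + 1 / 2 * (1 / 2 ^ w)) ω' l +
        (-1) * zt D i j r (fun _ => P) (t0 D J w ω + 1 * (1 / 2 ^ w)) ω' l := fun ω' l h => by
    unfold b1 be b2 z0
    rw [h, zero_mul, add_zero, one_mul]
    ring
  -- one sample
  have on0 : ∀ l ≤ n, |z0 D J w i j r (fun _ => P) ω l| ≤ exp (C' * z) ∧
      |b1 D J w i j r (fun _ => P) ω l| ≤ exp (C' * z) ∧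
      |b2 D J w i j r (fun _ => P) ω l| ≤ exp (C' * z) := by
    intro l hl
    have p0 := hbd l hl _ (W0 0).abs
    have p1 := hbd l hl _ (W1 0).abs
    have p2 := hbd l hl _ (W2 0).abs
    rw [sum4 _ _ _ _ _ fun u => zt D i j r (fun _ => P) (t0 D J w ω + u * (1 / 2 ^ w)) ω l]
      at p0 p1 p2
    rw [a0 ω l rfl, a1 ω l rfl, a2 ω l rfl]
    refine ⟨(le_of_eq ?_).trans p0, (le_of_eq ?_).trans p1, (le_of_eq ?_).trans p2⟩
    · congr 1
      ring
    · congr 1
      ring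
    · congr 1
      ring
  have on1 : ∀ l, 1 ≤ l → l ≤ n → ∀ a b c e : ℝ,
      Wt (nd (rt D J w ω)) 20 (sg gam l + 1) ![a, b, c, e] →
      |a * zt D i j r (fun _ => P) (t0 D J w ω + 0 * (1 / 2 ^ w)) ω l +
        b * zt D i j r (fun _ => P) (t0 D J w ω + 1 / 2 * (1 / 2 ^ w)) ω l +
        c * zt D i j r (fun _ => P) (t0 D J w ω + 1 * (1 / 2 ^ w)) ω l +
        e * ze D i j r (fun _ => P) ω l| ≤ exp (C' * z) / 2 ^ (y * z) := by
    intro l l1 hl a b c e hmu
    have p0 := hone l l1 hl _ r0 r1 _ hmu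
    rw [sum4 _ _ _ _ _ fun u => zt D i j r (fun _ => P) (t0 D J w ω + u * (1 / 2 ^ w)) ω l] at p0
    rw [hze l hl]
    exact p0
  -- two samples
  have tw : ∀ ω', 0 < q ω' → GoodS D n K' w₀ z M C ω' → bb D i j r ω = bb D i j r ω' →
      D.T ω / 2 ^ (J - w) = D.T ω' / 2 ^ (J - w) → ∀ e o : ℕ, i + e < M →
      (∀ s ≤ 2, s * r + y ≤ e + (s - o) * r) →
      D.c (i + e) (j - r) ω = D.c (i + e) (j - r) ω' → ∀ l, 1 ≤ l → l ≤ n →
      (sg gam l ≤ o → |z0 D J w i j r (fun _ => P) ω l - z0 D J w i j r (fun _ => P) ω' l| ≤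
        exp (C' * z) / 2 ^ (y * z)) ∧
      (sg gam l ≤ o + 1 → |b1 D J w i j r (fun _ => P) ω l - b1 D J w i j r (fun _ => P) ω' l| ≤
        exp (C' * z) / 2 ^ (y * z)) ∧
      |b2 D J w i j r (fun _ => P) ω l - b2 D J w i j r (fun _ => P) ω' l| ≤
        exp (C' * z) / 2 ^ (y * z) := by
    intro ω' hω' hG' hbb hT e o heM heo hce l l1 hl
    have et : t0 D J w ω' = t0 D J w ω := (t0_congr hT).symm
    have key : ∀ a b c : ℝ, Wt (nd 0) 20 (sg gam l - o) ![a, b, c, 0] →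
        |(a * zt D i j r (fun _ => P) (t0 D J w ω + 0 * (1 / 2 ^ w)) ω l +
          b * zt D i j r (fun _ => P) (t0 D J w ω + 1 / 2 * (1 / 2 ^ w)) ω l +
          c * zt D i j r (fun _ => P) (t0 D J w ω + 1 * (1 / 2 ^ w)) ω l) -
          (a * zt D i j r (fun _ => P) (t0 D J w ω + 0 * (1 / 2 ^ w)) ω' l +
          b * zt D i j r (fun _ => P) (t0 D J w ω + 1 / 2 * (1 / 2 ^ w)) ω' l +
          c * zt D i j r (fun _ => P) (t0 D J w ω + 1 * (1 / 2 ^ w)) ω' l)| ≤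
          exp (C' * z) / 2 ^ (y * z) := by
      intro a b c hmu
      have p0 := htwo ω' hω' hG' hbb hT e o heM heo hce l l1 hl _ hmu
      rw [sum4 _ _ _ _ _ fun u => zt D i j r (fun _ => P) (t0 D J w ω + u * (1 / 2 ^ w)) ω l -
        zt D i j r (fun _ => P) (t0 D J w ω + u * (1 / 2 ^ w)) ω' l] at p0
      refine (le_of_eq ?_).trans p0
      congr 1
      ring
    have hs := sg_le gam l
    refine ⟨fun h => ?_, fun h => ?_, ?_⟩
    · have p := key 1 0 0 ((W0 0).mono (by omega))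
      rw [a0 ω l rfl, a0 ω' l et]
      refine (le_of_eq ?_).trans p
      congr 1
      ring
    · have p := key (-3) 4 (-1) ((W1 0).mono (by omega))
      rw [a1 ω l rfl, a1 ω' l et]
      exact p
    · have p := key 2 (-4) 2 ((W2 0).mono (by omega))
      rw [a2 ω l rfl, a2 ω' l et]
      exact p
  refine ⟨fun l _ hl => on0 l hl, ?_, ?_, ?_, ?_⟩
  · -- constant coordinates
    intro l h
    have hl := h.2.1.le
    have e := sg_0 h
    have p0 := on1 l h.1 hl _ _ _ _ (by rw [e]; exact X1 _)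
    have p1 := on1 l h.1 hl _ _ _ _ (by rw [e]; exact W1 _)
    have p2 := on1 l h.1 hl _ _ _ _ (by rw [e]; exact (W2 _).mono (by norm_num))
    rw [a0 ω l rfl, a1 ω l rfl, a2 ω l rfl]
    refine ⟨(le_of_eq ?_).trans p0, (le_of_eq ?_).trans p1, (le_of_eq ?_).trans p2⟩
    · congr 1
      ring
    · congr 1
      ring
    · congr 1
      ring
  · -- affine coordinates
    intro l h
    have hl := h.2.1.le
    have e := sg_1 h
    have p0 := on1 l h.1 hl _ _ _ _ (by rw [e]; exact X2 r0 r1)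
    have p2 := on1 l h.1 hl _ _ _ _ (by rw [e]; exact W2 _)
    rw [a0 ω l rfl, a1 ω l rfl, a2 ω l rfl]
    refine ⟨(le_of_eq ?_).trans p0, (le_of_eq ?_).trans p2⟩
    · congr 1
      ring
    · congr 1
      ring
  · -- the group
    intro l h
    have hl := h.2.1
    have e := sg_2 g3 h
    have p0 := on1 l h.1 hl _ _ _ _ (by rw [e]; exact X3 r0 r1)
    rw [a0 ω l rfl, a1 ω l rfl, a2 ω l rfl]
    refine (le_of_eq ?_).trans p0
    congr 1
    ring
  · intro ω' hω' hG' hbb hT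
    have er := hS.er
    refine ⟨fun hL => ?_, fun hL => ?_, fun hL => ?_⟩
    · -- the place `L`
      have er' := hS.er'
      have T := tw ω' hω' hG' hbb hT r' 1 (by have := hS.er''; omega) (fun s hs => by
        interval_cases s <;> omega) hL
      refine ⟨fun l h => ?_, fun l h => ?_⟩
      · have e1 : sg gam l ≤ 1 := by
          rcases (Pool.P5.sl_iff g3 l).1 h with h1 | h1
          · rw [sg_0 h1]
            omega
          · rw [sg_1 h1]
        exact ⟨(T l h.1 h.2.1.le).1 e1, (T l h.1 h.2.1.le).2.1 (by omega)⟩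
      · exact ⟨(T l h.1 h.2.1).2.1 (by rw [sg_2 g3 h]), (T l h.1 h.2.1).2.2⟩
    · -- the place `L2`
      have er2 := hS.er2
      have T := tw ω' hω' hG' hbb hT r2 0 (by have := hS.er''; omega) (fun s hs => by
        interval_cases s <;> omega) hL
      refine ⟨fun l h => ?_, fun l h => ?_, fun l h => ?_⟩
      · exact (T l h.1 h.2.1.le).1 (by rw [sg_0 h])
      · exact (T l h.1 h.2.1.le).2.1 (by rw [sg_1 h])
      · exact (T l h.1 h.2.1).2.2
    · -- the place `L''`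
      have er'' := hS.er''
      have T := tw ω' hω' hG' hbb hT r'' 2 i2 (fun s hs => by
        interval_cases s <;> omega) hL
      intro l l1 hl
      have hs := sg_le gam l
      exact ⟨(T l l1 hl).1 hs, (T l l1 hl).2.1 (by omega), (T l l1 hl).2.2⟩

end Pool.P5N
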