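import Pool.Agent.H19.P5.Lvl
import Pool.Agent.H25.P4.Lin

/-!
# P5: the lines over a closed frame, (LIN)
-/

set_option autoImplicit false

namespace Pool.P5N

open Finset Real MvPolynomial
open Pool.Agent.H49.Ent Pool.Agent.H32.Dense Pool.STK
open Pool.STAT Pool.MIC.Frm Pool.FRM Pool.P4L
open Pool.P5 (sl gr sl0 sl1 Gam3 Stp Plc b1 b2)
open Pool.P4 (t0 rt pp PthC FraC bb ze zt z0 be GoodS FrP)

open Classical in
/-- **Combinations of the coordinates of the lines over a closed frame.** -/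
theorem lin_gen (n K K' : ℕ) (lam gam : ℕ → ℝ) (C₁ C : ℝ) (hC₁ : 1 ≤ C₁) (hC : 0 ≤ C)
    (hlam : ∀ l, 1 ≤ l → l ≤ n → lam l = 1) : ∃ C' : ℝ, 1 ≤ C' ∧
    ∀ (y r r2 r' r'' a M J a₀ w₀ z i j : ℕ) (D : NDat2) (q : D.Ω → ℝ) (κ : ℝ),
      1 ≤ z → Plc n gam y r r2 r' r'' a M i j → D.Ok2 n K J a₀ w₀ z M lam gam κ C₁ q →
      ∀ (P : ℕ → PN) (ω : D.Ω), 0 < q ω → GoodS D n K' w₀ z M C ω → FrP D n K' z i j r C P ω →
      (∀ l ≤ n, |ze D i j r (fun _ => P) ω l| ≤ exp (C' * z)) ∧
      ∀ w, w₀ + j * z ≤ w → w ≤ w₀ + (j + 1) * z → 0 ≤ rt D J w ω ∧ rt D J w ω ≤ 1 ∧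
        (∀ l ≤ n, ze D i j r (fun _ => P) ω l =
          zt D i j r (fun _ => P) (t0 D J w ω + rt D J w ω * (1 / 2 ^ w)) ω l) ∧
        (∀ l ≤ n, ∀ mu : Fin 4 → ℝ, ∑ k, |mu k| ≤ 20 →
          |∑ k, mu k * zt D i j r (fun _ => P) (t0 D J w ω + nd 0 k * (1 / 2 ^ w)) ω l| ≤
            exp (C' * z)) ∧
        (∀ l, 1 ≤ l → l ≤ n → ∀ s, 0 ≤ s → s ≤ 1 → ∀ mu, Wt (nd s) 20 (sg gam l + 1) mu →
          |∑ k, mu k * zt D i j r (fun _ => P) (t0 D J w ω + nd s k * (1 / 2 ^ w)) ω l| ≤
            exp (C' * z) / 2 ^ (y * z)) ∧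
        ∀ ω', 0 < q ω' → GoodS D n K' w₀ z M C ω' → bb D i j r ω = bb D i j r ω' →
          D.T ω / 2 ^ (J - w) = D.T ω' / 2 ^ (J - w) → ∀ e o : ℕ, i + e < M →
          (∀ s ≤ 2, s * r + y ≤ e + (s - o) * r) →
          D.c (i + e) (j - r) ω = D.c (i + e) (j - r) ω' →
          ∀ l, 1 ≤ l → l ≤ n → ∀ mu, Wt (nd 0) 20 (sg gam l - o) mu →
          |∑ k, mu k * (zt D i j r (fun _ => P) (t0 D J w ω + nd 0 k * (1 / 2 ^ w)) ω l -
            zt D i j r (fun _ => P) (t0 D J w ω + nd 0 k * (1 / 2 ^ w)) ω' l)| ≤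
            exp (C' * z) / 2 ^ (y * z) := by
  obtain ⟨K₂, hK₂⟩ : ∃ K₂, K₂ = K + K' := ⟨_, rfl⟩
  obtain ⟨N, hN⟩ : ∃ N, N = K₂ * (K₂ + 1) ^ n := ⟨_, rfl⟩
  obtain ⟨Ct, hCt1, hCt⟩ := tayW ((K₂ + 1) * (K + 1))
  obtain ⟨Cs, Ns, hCs, hsys⟩ := sys_near K₂ (n + 1)
  obtain ⟨c, hc⟩ := exists_nat_ge (4 * C₁ + 1)
  obtain ⟨C₀, hC₀⟩ : ∃ C₀ : ℝ, C₀ = C + 1 + c := ⟨_, rfl⟩
  have hc0 : (0 : ℝ) ≤ c := Nat.cast_nonneg c
  obtain ⟨e₀, he⟩ : ∃ e₀, e₀ = dd N n := ⟨_, rfl⟩
  obtain ⟨Cd, hCd1, hCd⟩ : ∃ Cd : ℝ, 1 ≤ Cd ∧ ∀ l ≤ n, ((exs l N).card : ℝ) ≤ Cd := by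
    refine ⟨1 + ∑ l ∈ range (n + 1), ((exs l N).card : ℝ), ?_, fun l hl => ?_⟩
    · have : 0 ≤ ∑ l ∈ range (n + 1), ((exs l N).card : ℝ) :=
        Finset.sum_nonneg fun _ _ => Nat.cast_nonneg _
      linarith only [this]
    · have := Finset.single_le_sum (f := fun l => ((exs l N).card : ℝ))
        (fun _ _ => Nat.cast_nonneg _) (mem_range.2 (Nat.lt_succ_of_le hl))
      linarith only [this]
  obtain ⟨C', hC', hnum⟩ := nums n N e₀ Ns (40 * Ct) Cs (10 * Cd) C₀ (by linarith only [hCt1])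
    hCs (by linarith only [hCd1]) (by rw [hC₀]; positivity)
  refine ⟨C', hC', ?_⟩
  intro y r r2 r' r'' a M J a₀ w₀ z i j D q κ hz hPl hO P ω hω hG hFP
  have hzr : (1 : ℝ) ≤ z := by exact_mod_cast hz
  have hz0 : (0 : ℝ) ≤ z := by linarith only [hzr]
  have hS := hPl.stp
  have i2 := hPl.i2
  have j1 := hPl.j1
  have j2 := hPl.j2
  have a1 := hPl.a1
  -- sizes
  exact by
   obtain ⟨E, hE⟩ : ∃ E : ℝ, E = exp (C₀ * z) := ⟨_, rfl⟩
   have hE1 : exp z ≤ E := by
     rw [hE]
     refine exp_le_exp.2 (le_mul_of_one_le_left hz0 ?_)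
     rw [hC₀]
     linarith only [hC₁, hC, hc]
   have hE2 : exp (C * z) ≤ E := by
     rw [hE]
     refine exp_le_exp.2 (mul_le_mul_of_nonneg_right ?_ hz0)
     rw [hC₀]
     linarith only [hC₁, hc]
   have hE3 : (2 : ℝ) ^ (c * z) ≤ E := by
     refine (two_pow_le c z).trans ?_
     rw [hE]
     refine exp_le_exp.2 (mul_le_mul_of_nonneg_right ?_ hz0)
     rw [hC₀]
     linarith only [hC]
   have hEone : 1 ≤ E := (one_le_exp hz0).trans hE1
   have hE0 : 0 < E := by linarith only [hEone]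
   obtain ⟨A, hA⟩ : ∃ A : ℝ, A = (4 * E) ^ e₀ := ⟨_, rfl⟩
   have hA1 : 1 ≤ A := by
     rw [hA]
     exact one_le_pow₀ (by linarith only [hEone])
   obtain ⟨B, hB⟩ : ∃ B : ℝ, B = 40 * Ct * (4 * E) ^ e₀ * E := ⟨_, rfl⟩
   have hBA : B = 40 * (Ct * A) * E := by rw [hB, hA]; ring
   have hCA : A ≤ Ct * A := le_mul_of_one_le_left (by linarith only [hA1]) hCt1
   have hCA0 : 0 ≤ Ct * A := by linarith only [hA1, hCA]
   have hAB : 40 * (Ct * A) ≤ B := by
     rw [hBA]
     exact le_mul_of_one_le_right (by linarith only [hCA0]) hEone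
   have hAB' : A ≤ B := by linarith only [hA1, hCA, hAB]
   exact by
    have hB1 : 1 ≤ B := hA1.trans hAB'
    obtain ⟨S, hSd⟩ : ∃ S : ℝ, S = Cs * E ^ Ns := ⟨_, rfl⟩
    have hS0 : 0 ≤ S := by rw [hSd]; positivity
    obtain ⟨S', hS'⟩ : ∃ S' : ℝ, S' = Cs * E ^ Ns * E ^ (n * N + 3) := ⟨_, rfl⟩
    have hSS : S ≤ S' := by
      rw [hS', ← hSd]
      exact le_mul_of_one_le_right hS0 (one_le_pow₀ hEone)
    have hS'0 : 0 ≤ S' := hS0.trans hSS
    have hSp : S * 2 ^ ((n * N + 3) * (c * z)) ≤ S' := by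
      rw [hS', ← hSd]
      refine mul_le_mul_of_nonneg_left ?_ hS0
      rw [mul_comm (n * N + 3), pow_mul]
      exact pow_le_pow_left₀ (by positivity) hE3 _
    obtain ⟨Z, hZ⟩ : ∃ Z : ℝ, Z = B + Cd * (2 * 20 * B ^ (n * N + 1) * S') := ⟨_, rfl⟩
    have hZ1 : B ≤ Z := by
      rw [hZ]
      have : 0 ≤ Cd * (2 * 20 * B ^ (n * N + 1) * S') := by positivity
      linarith only [this]
    have hfin : Z ≤ exp (C' * z) := by
      have h1 := hnum z hz E B hE hB
      rw [← hS'] at h1
      rw [hZ]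
      have h2 : 0 ≤ Cd * (B ^ (n * N + 1) * S') := by positivity
      have h3 : 10 * Cd * (4 * B ^ (n * N + 1) * S') = 40 * (Cd * (B ^ (n * N + 1) * S')) := by
        ring
      have h4 : Cd * (2 * 20 * B ^ (n * N + 1) * S') = 40 * (Cd * (B ^ (n * N + 1) * S')) := by
        ring
      rw [h3] at h1
      rw [h4]
      linarith only [h1, h2, hB1]
    obtain ⟨δ, hδ⟩ : ∃ δ : ℝ, δ = 1 / 2 ^ (y * z) := ⟨_, rfl⟩
    have hδ0 : 0 ≤ δ := by rw [hδ]; positivity
    have eδ : exp (C' * z) / 2 ^ (y * z) = exp (C' * z) * δ := by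
      rw [hδ, mul_one_div]
    rw [eδ]
    have fin1 : ∀ x : ℝ, x ≤ Z * δ → x ≤ exp (C' * z) * δ := fun x hx =>
      hx.trans (mul_le_mul_of_nonneg_right hfin hδ0)
    exact by
     -- the systems
     have hK1 : K ≤ K₂ := by omega
     have dP : ∀ l, (P l).totalDegree ≤ K₂ := fun l => (hFP.deg l).trans (by omega)
     have hP := hFP.tri
     have nP : ∀ i' ≤ i, ∀ l ≤ n,
         nrm (D.g i' j) (1 / 2) (chr P (D.Φ i' j ω l - P l)) ≤ E / 2 ^ D.g i' j l ∧
         nrm (D.g (i' - 1) (j - r)) (1 / 2) (chr P (D.Φ (i' - 1) (j - r) ω l - P l)) ≤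
           E / 2 ^ D.g (i' - 1) (j - r) l := fun i' hi' l hl =>
       ⟨(hFP.near i' hi' l hl).1.trans (div_le_div_of_nonneg_right hE2 (by positivity)),
         (hFP.near i' hi' l hl).2.trans (div_le_div_of_nonneg_right hE2 (by positivity))⟩
     obtain ⟨Q, hQ, dQ', -, nQ'⟩ := hG.fc
     have dQ : ∀ l, (Q l).totalDegree ≤ K₂ := fun l => (dQ' l).trans (by omega)
     have nQ : ∀ i' < M, ∀ j' < M, ∀ l ≤ n,
         nrm (D.g i' j') (1 / 2) (chr Q (D.Φ i' j' ω l - Q l)) ≤ E / 2 ^ D.g i' j' l :=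
       fun i' hi' j' hj' l hl => (nQ' i' hi' j' hj' l hl).trans
         (div_le_div_of_nonneg_right hE2 (by positivity))
     have hLv := lv_of hO hlam (by linarith only [hC₁]) hc hPl
     -- the difference of the systems
     have sys : ∀ i' j' : ℕ, i' < M → j' < M → (∀ l ≤ n,
         nrm (D.g i' j') (1 / 2) (chr P (D.Φ i' j' ω l - P l)) ≤ E / 2 ^ D.g i' j' l) →
         ∀ l ≤ n, nrm (D.g i' j') (1 / 2) (chr Q (P l - Q l)) ≤ S / 2 ^ D.g i' j' l := by
       intro i' j' hi' hj' h l hl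
       rw [hSd]
       exact hsys (D.g i' j') (D.Φ i' j' ω) P Q E (hO.P_tri i' j' _) hP hQ
         (fun l => (hO.P_deg i' j' _ l).trans hK1) dP dQ hEone (fun l hl => h l (by omega))
         (fun l hl => nQ i' hi' j' hj' l (by omega)) l (by omega)
     have W0 := sys i j (by omega) (by omega) (fun l hl => (nP i le_rfl l hl).1)
     have W1 := sys (i - 1) (j - r) (by omega) (by omega) (fun l hl => (nP i le_rfl l hl).2)
     have W2 := sys (i - a) j (by omega) (by omega) (fun l hl => (nP (i - a) (by omega) l hl).1)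
     exact by
      have vF : ∀ l, (chr Q (P l - Q l)).vars ⊆ range l := fun l =>
        chr_vars hQ (AdxRow.vars_sub_le (hP l) (hQ l))
      have dF : ∀ l ≤ n, (chr Q (P l - Q l)).totalDegree ≤ N := fun l hl => by
        refine (chr_deg (K := K₂) (K' := K₂) hQ (fun k _ => dQ k)
          (AdxRow.vars_sub_le (hP l) (hQ l)) ((totalDegree_sub _ _).trans
            (max_le (dP l) (dQ l)))).trans ?_
        rw [hN]
        exact Nat.mul_le_mul_left _ (Nat.pow_le_pow_right (by omega) hl)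
      -- one sample
      have bx : ∀ t : ℝ, |t - D.X ω 0| ≤ 1 / 2 ^ (w₀ + j * z) → ∀ l ≤ n,
          |zt D i j r (fun _ => P) t ω l| ≤ A := by
        intro t ht l hl
        have h := in_box hO hK1 hP dP (i := i) (j := j) (by omega) (by omega) hE1 hG.pc
          (fun l hl => (nP i le_rfl l hl).1) ht l hl
        rw [← hN, ← he, ← hA] at h
        have h2 : |zs P (pp D (D.ln ω) t) l| ≤ A * 1 / 2 ^ D.g i j l := by rwa [mul_one]
        have h3 := up h2
        rw [mul_one] at h3
        exact h3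
      have hze : ∀ l ≤ n, ze D i j r (fun _ => P) ω l = zt D i j r (fun _ => P) (D.X ω 0) ω l := by
        intro l hl
        unfold ze zt
        rw [nat_eq, nat_eq, zs_congr (m := n + 1) hP (fun k hk => X_pp hO hω (by omega)) (by omega)]
      refine ⟨fun l hl => ?_, ?_⟩
      · rw [hze l hl]
        refine (bx _ ?_ l hl).trans (by linarith only [hAB', hZ1, hfin])
        rw [sub_self, abs_zero]
        positivity
      intro w hw1 hw2
      have hwJ : w ≤ J := by
        have e1 := hO.top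
        have e2 := hO.thin
        have e3 : (j + 1) * z ≤ (M + 1) * z := Nat.mul_le_mul_right z (by omega)
        omega
      exact by
       obtain ⟨r0, r1, rX⟩ := tms hO hwJ ω
       have hpw : (1 : ℝ) / 2 ^ w ≤ 1 / 2 ^ (w₀ + j * z) :=
         one_div_le_one_div_of_le (by positivity) (pow_le_pow_right₀ one_le_two hw1)
       have hpw0 : (0 : ℝ) < 1 / 2 ^ w := by positivity
       have hj1w : w₀ + (j - r) * z ≤ w := by
         have : (j - r) * z ≤ j * z := Nat.mul_le_mul_right z (Nat.sub_le _ _)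
         omega
       have hrz : r * z ≤ w - (w₀ + (j - r) * z) := by
         have : (j - r) * z + r * z = j * z := by
           rw [← add_mul]
           congr 1
           omega
         omega
       have hwe : (1 : ℝ) / 2 ^ (w - (w₀ + (j - r) * z)) ≤ 1 / 2 ^ (r * z) :=
         one_div_le_one_div_of_le (by positivity) (pow_le_pow_right₀ one_le_two hrz)
       have hwd : ∀ d : ℕ, ((1 : ℝ) / 2 ^ (w - (w₀ + (j - r) * z))) ^ d ≤
           1 / 2 ^ (d * (r * z)) := fun d => by
         calc ((1 : ℝ) / 2 ^ (w - (w₀ + (j - r) * z))) ^ d ≤ (1 / 2 ^ (r * z)) ^ d :=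
               pow_le_pow_left₀ (by positivity) hwe d
           _ = 1 / 2 ^ (d * (r * z)) := by
               rw [div_pow, one_pow, ← pow_mul, mul_comm (r * z) d]
       refine ⟨r0, r1, fun l hl => by rw [hze l hl, rX], fun l hl mu hmu => ?_, ?_⟩
       · -- bounds
         have h1 : |∑ k, mu k * zt D i j r (fun _ => P) (t0 D J w ω + nd 0 k * (1 / 2 ^ w)) ω l| ≤
             20 * A := by
           refine (Wt.le (x := nd 0) (d := 0) ⟨hmu, fun p hp => absurd hp (Nat.not_lt_zero _)⟩
             (by linarith only [hA1]) fun k => bx _ ?_ l hl)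
           obtain ⟨n0, n1⟩ := nd_mem (s := 0) le_rfl zero_le_one k
           have h3 : rt D J w ω * (1 / 2 ^ w) ≤ 1 / 2 ^ w := by
             calc rt D J w ω * (1 / 2 ^ w) ≤ 1 * (1 / 2 ^ w) :=
                   mul_le_mul_of_nonneg_right r1 hpw0.le
               _ = 1 / 2 ^ w := one_mul _
           have h4 : 0 ≤ rt D J w ω * (1 / 2 ^ w) := by positivity
           have h5 : nd 0 k * (1 / 2 ^ w) ≤ 1 / 2 ^ w := by
             calc nd 0 k * (1 / 2 ^ w) ≤ 1 * (1 / 2 ^ w) :=
                   mul_le_mul_of_nonneg_right n1 hpw0.le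
               _ = 1 / 2 ^ w := one_mul _
           have h6 : 0 ≤ nd 0 k * (1 / 2 ^ w) := by positivity
           rw [abs_le]
           constructor <;> linarith
         refine h1.trans ?_
         linarith only [hCA, hAB, hZ1, hfin, hA1]
       refine ⟨fun l l1 hl s s0 s1 mu hmu => ?_, ?_⟩
       · -- one sample, small
         have h1 := comb_box hO hK1 hP dP (i := i - 1) (j := j - r) (by omega)
           (by omega) hE1 hCt hG.pc (fun l hl => (nP i le_rfl l hl).2) hwJ hj1w hl hmu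
           (fun k => nd_mem s0 s1 k)
         rw [← hN, ← he, ← hA] at h1
         have e1 : Ct * 20 * (A / 2 ^ D.g (i - 1) (j - r) l) =
             20 * (Ct * A) / 2 ^ D.g (i - 1) (j - r) l := by ring
         rw [e1] at h1
         have h2 := h1.trans (pw1 (u := D.g i j l) (p := y * z) (s := c * z)
           (by linarith only [hCA0]) (hwd _) hE3 (hLv.o l l1 hl))
         have h3 : 20 * (Ct * A) * E * (1 / 2 ^ (y * z)) / 2 ^ D.g i j l ≤
             B * δ / 2 ^ D.g i j l := by
           rw [← hδ, hBA]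
           refine div_le_div_of_nonneg_right (mul_le_mul_of_nonneg_right
             (mul_le_mul_of_nonneg_right (by linarith only [hCA0]) hE0.le) hδ0) (by positivity)
         have h4 := up (h2.trans h3)
         refine fin1 _ ((le_of_eq ?_).trans (h4.trans (mul_le_mul_of_nonneg_right hZ1 hδ0)))
         rw [Finset.mul_sum]
         congr 1
         refine Finset.sum_congr rfl fun k _ => ?_
         unfold zt
         rw [nat_eq]
         ring
       -- two samples
       exact by
        intro ω' hω' hG' hbb hT e o heM heo hce l l1 hl mu hmu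
        have ec : D.c i j ω' = D.c i j ω := (congrArg Prod.fst hbb).symm
        have et : t0 D J w ω' = t0 D J w ω := (t0_congr hT).symm
        have eΦ : D.Φ i j ω' = D.Φ i j ω := by
          unfold NDat2.Φ
          rw [ec]
        have eE : D.Φ (i + e) (j - r) ω' = D.Φ (i + e) (j - r) ω := by
          unfold NDat2.Φ
          rw [hce]
        have hLE := lvE_of hO hlam (by linarith only [hC₁]) hc hPl heM.le heo
        -- natural bounds at `(i, j)`
        have gen : ∀ υ : D.Ω, PthC D n w₀ z M 1 υ → D.Φ i j υ = D.Φ i j ω →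
            t0 D J w υ = t0 D J w ω → ∀ k : Fin 4, ∀ l ≤ n,
            |zs Q (pp D (D.ln υ) (t0 D J w ω + nd 0 k * (1 / 2 ^ w))) l| ≤
              B / 2 ^ D.g i j l := by
          intro υ hυ e1 e2 k l hl
          have nr : ∀ l ≤ n, nrm (D.g i j) (1 / 2) (chr Q (D.Φ i j υ l - Q l)) ≤
              E / 2 ^ D.g i j l := fun l hl => by
            rw [e1]
            exact nQ i (by omega) j (by omega) l hl
          obtain ⟨s0, s1, sX⟩ := tms hO hwJ υ
          rw [e2] at sX
          obtain ⟨n0, n1⟩ := nd_mem (s := 0) le_rfl zero_le_one k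
          have hs1 : rt D J w υ * (1 / 2 ^ w) ≤ 1 / 2 ^ w := by
            calc rt D J w υ * (1 / 2 ^ w) ≤ 1 * (1 / 2 ^ w) :=
                  mul_le_mul_of_nonneg_right s1 hpw0.le
              _ = 1 / 2 ^ w := one_mul _
          have hs0 : 0 ≤ rt D J w υ * (1 / 2 ^ w) := by positivity
          have h5 : nd 0 k * (1 / 2 ^ w) ≤ 1 / 2 ^ w := by
            calc nd 0 k * (1 / 2 ^ w) ≤ 1 * (1 / 2 ^ w) :=
                  mul_le_mul_of_nonneg_right n1 hpw0.le
              _ = 1 / 2 ^ w := one_mul _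
          have h6 : 0 ≤ nd 0 k * (1 / 2 ^ w) := by positivity
          have h := in_box hO hK1 hQ dQ (i := i) (j := j) (by omega) (by omega) hE1 hυ nr
            (t := t0 D J w ω + nd 0 k * (1 / 2 ^ w)) (by
              rw [abs_le]
              constructor <;> linarith) l hl
          rw [← hN, ← he, ← hA] at h
          exact h.trans (div_le_div_of_nonneg_right hAB' (by positivity))
        -- small combinations at the place of the line side
        have cmb : ∀ υ : D.Ω, PthC D n w₀ z M 1 υ → D.Φ (i + e) (j - r) υ =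
            D.Φ (i + e) (j - r) ω → t0 D J w υ = t0 D J w ω → ∀ l, 1 ≤ l → l ≤ n →
            ∀ mu, Wt (nd 0) 20 (sg gam l - o) mu →
            |∑ k, mu k * zs Q (pp D (D.ln υ) (t0 D J w ω + nd 0 k * (1 / 2 ^ w))) l| ≤
              20 * (Ct * A) * E * (1 / 2 ^ (y * z)) / 2 ^ D.g i j l := by
          intro υ hυ e1 e2 l l1 hl mu hmu
          have nr : ∀ l ≤ n, nrm (D.g (i + e) (j - r)) (1 / 2)
              (chr Q (D.Φ (i + e) (j - r) υ l - Q l)) ≤ E / 2 ^ D.g (i + e) (j - r) l :=
            fun l hl => by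
              rw [e1]
              exact nQ (i + e) heM (j - r) (by omega) l hl
          have h1 := comb_box hO hK1 hQ dQ (i := i + e) (j := j - r) heM.le
            (by omega) hE1 hCt hυ nr hwJ hj1w hl hmu (fun k => nd_mem le_rfl zero_le_one k)
          rw [← hN, ← he, ← hA, e2] at h1
          have e3 : Ct * 20 * (A / 2 ^ D.g (i + e) (j - r) l) =
              20 * (Ct * A) / 2 ^ D.g (i + e) (j - r) l := by ring
          rw [e3] at h1
          exact h1.trans (pw1 (u := D.g i j l) (p := y * z) (s := c * z)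
            (by linarith only [hCA0]) (hwd _) hE3 (hLE l l1 hl))
        exact by
         obtain ⟨τ, hτ⟩ : ∃ τ : Polynomial ℝ, τ = Polynomial.C (t0 D J w ω - eval 0 (Q 0)) +
           Polynomial.C (1 / 2 ^ w) * Polynomial.X := ⟨_, rfl⟩
         have hτd : τ.natDegree ≤ 1 := by
           rw [hτ]
           refine (Polynomial.natDegree_add_le _ _).trans (max_le ?_ ?_)
           · rw [Polynomial.natDegree_C]
             exact Nat.zero_le _
           · exact (Polynomial.natDegree_C_mul_le _ _).trans Polynomial.natDegree_X_le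
         have h0 : ∀ υ : D.Ω, ∀ k : Fin 4,
             zs Q (pp D (D.ln υ) (t0 D J w ω + nd 0 k * (1 / 2 ^ w))) 0 = τ.eval (nd 0 k) := by
           intro υ k
           have h1 : eval (pp D (D.ln υ) (t0 D J w ω + nd 0 k * (1 / 2 ^ w))) (Q 0) =
               eval 0 (Q 0) := by
             refine eval_congr_vars (fun i hi => ?_)
             exact absurd (hQ 0 hi) (by simp)
           unfold zs
           rw [h1, pp_zero, hτ, Polynomial.eval_add, Polynomial.eval_C, Polynomial.eval_mul,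
             Polynomial.eval_C, Polynomial.eval_X]
           ring
         have g1 := gen ω hG.pc rfl rfl
         have g2 := gen ω' hG'.pc eΦ et
         have main := coreW (P := P) (Q := Q) (l := l) (N := N) (g := D.g i j) (B := B) (S := S')
           (δ := δ) (L := 20) hQ (vF l) (dF l hl) hB1 hS'0 hδ0 (by norm_num)
           (x := nd 0) (dk := fun k => sg gam k - o) (lam := mu) hmu l1
           (fun α => sm_nat (W0 l hl) hSS α)
           (fun α hα => by
             rw [hδ]
             exact hLv.cases hS0 hSp l1 hl (W1 l hl) (W2 l hl) o α hα)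
           (X := fun k => pp D (D.ln ω) (t0 D J w ω + nd 0 k * (1 / 2 ^ w)))
           (X' := fun k => pp D (D.ln ω') (t0 D J w ω + nd 0 k * (1 / 2 ^ w)))
           hτd (h0 ω) (h0 ω') (fun k => by
             rw [← h0 ω k]
             exact g1 k 0 (Nat.zero_le _))
           (fun k m hm => g1 k m (by omega)) (fun k m hm => g2 k m (by omega))
           (fun m m1 hm nu hnu => by
             have a1 := cmb ω hG.pc rfl rfl m m1 (by omega) nu hnu
             have a2 := cmb ω' hG'.pc eE et m m1 (by omega) nu hnu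
             have e1 : ∑ k, nu k * (zs Q (pp D (D.ln ω) (t0 D J w ω + nd 0 k * (1 / 2 ^ w))) m -
                 zs Q (pp D (D.ln ω') (t0 D J w ω + nd 0 k * (1 / 2 ^ w))) m) =
                 (∑ k, nu k * zs Q (pp D (D.ln ω) (t0 D J w ω + nd 0 k * (1 / 2 ^ w))) m) -
                 ∑ k, nu k * zs Q (pp D (D.ln ω') (t0 D J w ω + nd 0 k * (1 / 2 ^ w))) m := by
               rw [← Finset.sum_sub_distrib]
               exact Finset.sum_congr rfl fun k _ => by ring
             rw [e1]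
             refine (abs_sub _ _).trans ?_
             have e2 : B * δ / 2 ^ D.g i j m =
                 20 * (Ct * A) * E * (1 / 2 ^ (y * z)) / 2 ^ D.g i j m +
                 20 * (Ct * A) * E * (1 / 2 ^ (y * z)) / 2 ^ D.g i j m := by
               rw [hBA, hδ]
               ring
             rw [e2]
             linarith only [a1, a2])
         have Zle : B + (exs l N).card * (2 * 20 * B ^ (l * N + 1) * S') ≤ Z := by
           rw [hZ]
           have h1 : B ^ (l * N + 1) ≤ B ^ (n * N + 1) := by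
             refine pow_le_pow_right₀ hB1 ?_
             have : l * N ≤ n * N := Nat.mul_le_mul_right N hl
             omega
           have h2 : ((exs l N).card : ℝ) * (2 * 20 * B ^ (l * N + 1) * S') ≤
               Cd * (2 * 20 * B ^ (n * N + 1) * S') := by
             refine mul_le_mul (hCd l hl) ?_ (by positivity) (by linarith only [hCd1])
             exact mul_le_mul_of_nonneg_right (mul_le_mul_of_nonneg_left h1 (by norm_num)) hS'0
           linarith only [h2]
         refine fin1 _ ((le_of_eq ?_).trans ((up main).trans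
           (mul_le_mul_of_nonneg_right Zle hδ0)))
         rw [Finset.mul_sum]
         congr 1
         refine Finset.sum_congr rfl fun k _ => ?_
         unfold zt
         rw [nat_eq, nat_eq]
         ring

end Pool.P5N
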