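import Pool.Agent.H19.P5.Wt
import Pool.Agent.H12.P5.Stm

/-!
# P5, lines over a closed frame: levels of a cell, combinations of the path
-/

set_option autoImplicit false

namespace Pool.P5N

open Finset Real MvPolynomial
open Pool.Agent.H49.Ent Pool.Agent.H32.Dense Pool.STK
open Pool.STAT Pool.MIC.Frm Pool.FRM Pool.P4L
open Pool.P5 (sl gr sl0 sl1 Gam3 Stp Plc)
open Pool.P4 (t0 rt pp PthC)

/-! ### The slopes as natural numbers -/

open Classical in
/-- The slope of a coordinate, a natural number. -/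
noncomputable def sg (gam : ℕ → ℝ) (l : ℕ) : ℕ := if gam l = 0 then 0 else if gam l = 1 then 1 else 2

theorem sg_eq {n : ℕ} {gam : ℕ → ℝ} (h : Gam3 n gam) {l : ℕ} (l1 : 1 ≤ l) (ln : l ≤ n) :
    (sg gam l : ℝ) = gam l := by
  unfold sg
  rcases h.g l l1 ln with h1 | h1 | h1
  · rw [if_pos h1, h1]
    norm_num
  · rw [if_neg (by rw [h1]; norm_num), if_pos h1, h1]
    norm_num
  · rw [if_neg (by rw [h1]; norm_num), if_neg (by rw [h1]; norm_num), h1]
    norm_num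

theorem sg_0 {n : ℕ} {gam : ℕ → ℝ} {l : ℕ} (h : sl0 gam n l) : sg gam l = 0 := by
  unfold sg
  rw [if_pos h.2.2]

theorem sg_1 {n : ℕ} {gam : ℕ → ℝ} {l : ℕ} (h : sl1 gam n l) : sg gam l = 1 := by
  unfold sg
  rw [if_neg (by rw [h.2.2]; norm_num), if_pos h.2.2]

theorem sg_2 {n : ℕ} {gam : ℕ → ℝ} (hg : Gam3 n gam) {l : ℕ} (h : gr gam n l) : sg gam l = 2 := by
  have h1 := sg_eq hg h.1 h.2.1
  rw [((Pool.P5.gr_iff hg l).1 h).2.2] at h1
  exact_mod_cast h1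

theorem sg_le (gam : ℕ → ℝ) (l : ℕ) : sg gam l ≤ 2 := by
  unfold sg
  split_ifs <;> omega

/-! ### Levels -/

/-- **Levels** at the base place (`g`) and at the coarser places (`g1`: a longer window, `g2`: a
larger radius). -/
structure Lv (n c y z r a : ℕ) (s : ℕ → ℕ) (g g1 g2 : ℕ → ℕ) : Prop where
  t1 : g1 0 + r * z = g 0
  t2 : g2 0 = g 0
  ya : y ≤ a
  o : ∀ l, 1 ≤ l → l ≤ n → g l + y * z ≤ g1 l + (s l + 1) * (r * z) + c * z
  q1 : ∀ k, 1 ≤ k → k ≤ n → g2 k + a * z ≤ g k + c * z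
  q2 : ∀ l, 1 ≤ l → l ≤ n → g l ≤ g2 l + a * z + c * z
  s1 : ∀ l k m, 1 ≤ l → l ≤ n → 1 ≤ k → k ≤ n → s l + 1 ≤ s k + m →
    g1 k + m * g1 0 + g l + y * z ≤ g k + m * g 0 + g1 l + c * z

/-- **Levels** at a place of the line side (`gE`), of the order `o`. -/
def LvE (n c y z r o : ℕ) (s : ℕ → ℕ) (g gE : ℕ → ℕ) : Prop :=
  ∀ l, 1 ≤ l → l ≤ n → g l + y * z ≤ gE l + (s l - o) * (r * z) + c * z

section

variable {n c y z r a : ℕ} {s g g1 g2 : ℕ → ℕ}

theorem Lv.quad (h : Lv n c y z r a s g g1 g2) {l N k k' : ℕ} {γ : ℕ →₀ ℕ}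
    (l1 : 1 ≤ l) (ln : l ≤ n) (k1 : 1 ≤ k) (k1' : 1 ≤ k')
    (hα : Finsupp.single k 1 + (Finsupp.single k' 1 + γ) ∈ exs l N) :
    Finsupp.weight g2 (Finsupp.single k 1 + (Finsupp.single k' 1 + γ)) + g l + y * z ≤
      Finsupp.weight g (Finsupp.single k 1 + (Finsupp.single k' 1 + γ)) + g2 l +
        (n * N + 3) * (c * z) := by
  have hlt : ∀ i, (Finsupp.single k 1 + (Finsupp.single k' 1 + γ) : ℕ →₀ ℕ) i ≠ 0 → i < l :=
    fun i hi => exs_lt hα (Finsupp.mem_support_iff.2 hi)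
  have hk : k < l := hlt k (by
    rw [Finsupp.add_apply, Finsupp.single_eq_same]
    omega)
  have hk' : k' < l := hlt k' (by
    rw [Finsupp.add_apply, Finsupp.add_apply, Finsupp.single_eq_same]
    omega)
  have hγ : ∀ i, γ i ≠ 0 → i < l := fun i hi => hlt i (by
    rw [Finsupp.add_apply, Finsupp.add_apply]
    omega)
  have hdeg := exs_deg hα
  rw [← Finsupp.degree_apply, map_add, map_add, Finsupp.degree_single, Finsupp.degree_single]
    at hdeg
  have hd2 : γ.degree ≤ n * N := by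
    have : l * N ≤ n * N := Nat.mul_le_mul_right N ln
    omega
  have hw := wt_le (d := g) (d' := g2) (e := c * z) hγ fun i hi => by
    rcases Nat.eq_zero_or_pos i with h0 | h0
    · rw [h0, h.t2]
      exact Nat.le_add_right _ _
    · have := h.q1 i h0 (by omega)
      omega
  rw [map_add, map_add, map_add, map_add, Finsupp.weight_single, Finsupp.weight_single,
    Finsupp.weight_single, Finsupp.weight_single, one_smul, one_smul, one_smul, one_smul]
  have e1 := h.q1 k k1 (by omega)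
  have e2 := h.q1 k' k1' (by omega)
  have e3 := h.q2 l l1 ln
  have e4 : y * z ≤ a * z := Nat.mul_le_mul_right z h.ya
  have e5 : γ.degree * (c * z) ≤ n * N * (c * z) := Nat.mul_le_mul_right _ hd2
  have e6 : (n * N + 3) * (c * z) = n * N * (c * z) + 3 * (c * z) := by ring
  omega

/-- The coefficients are small or linear. -/
theorem Lv.cases (h : Lv n c y z r a s g g1 g2) {F : PN} {l N : ℕ} {S S' : ℝ}
    (hS : 0 ≤ S) (hS' : S * 2 ^ ((n * N + 3) * (c * z)) ≤ S') (l1 : 1 ≤ l) (ln : l ≤ n)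
    (h1 : nrm g1 (1 / 2) F ≤ S / 2 ^ g1 l)
    (h2 : nrm g2 (1 / 2) F ≤ S / 2 ^ g2 l) (o : ℕ) : ∀ α ∈ exs l N,
    Sm g l F S' (1 / 2 ^ (y * z)) α ∨ (∀ k, 1 ≤ k → α k = 0) ∨
      ∃ k m, 1 ≤ k ∧ α = Finsupp.single k 1 + Finsupp.single 0 m ∧
        (s k - o = 0 ∨ s k - o + m ≤ s l - o) := by
  intro α hα
  by_cases ha : ∃ k, 1 ≤ k ∧ α k ≠ 0
  swap
  · push Not at ha
    exact Or.inr (Or.inl ha)
  obtain ⟨k, k1, hk⟩ := ha
  have hkl := exs_lt hα (Finsupp.mem_support_iff.2 hk)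
  rcases split_exp hk with ⟨k', γ, k1', e⟩ | ⟨m, e⟩
  · left
    rw [e] at hα ⊢
    exact (sm_of hS h2 (h.quad l1 ln k1 k1' hα)).mono hS' (by positivity)
  · rcases Nat.lt_or_ge (s l) (s k + m) with hm | hm
    · left
      rw [e]
      refine (sm_of hS h1 (u := y * z) (v := c * z) ?_).mono (le_trans ?_ hS') (by positivity)
      · rw [map_add, map_add, Finsupp.weight_single, Finsupp.weight_single, Finsupp.weight_single,
          Finsupp.weight_single, one_smul, one_smul, smul_eq_mul, smul_eq_mul]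
        exact h.s1 l k m l1 ln k1 (by omega) hm
      · refine mul_le_mul_of_nonneg_left (pow_le_pow_right₀ one_le_two ?_) hS
        exact Nat.le_mul_of_pos_left _ (by omega)
    · refine Or.inr (Or.inr ⟨k, m, k1, e, ?_⟩)
      omega

end

section

variable {D : NDat2} {n K J a₀ w₀ z M : ℕ} {lam gam : ℕ → ℝ} {κ C₁ : ℝ} {q : D.Ω → ℝ}

theorem lv_of (hO : D.Ok2 n K J a₀ w₀ z M lam gam κ C₁ q)
    (hlam : ∀ l, 1 ≤ l → l ≤ n → lam l = 1) (hC₁ : 0 ≤ C₁) {c : ℕ} (hc : 4 * C₁ + 1 ≤ c)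
    {y r r2 r' r'' a i j : ℕ} (hP : Plc n gam y r r2 r' r'' a M i j) :
    Lv n c y z r a (sg gam) (D.g i j) (D.g (i - 1) (j - r)) (D.g (i - a) j) := by
  have hz0 : (0 : ℝ) ≤ z := Nat.cast_nonneg z
  have hS := hP.stp
  have i2 := hP.i2
  have j1 := hP.j1
  have j2 := hP.j2
  have a1 := hP.a1
  have hcz' : (4 * C₁ + 1) * z ≤ c * z := mul_le_mul_of_nonneg_right hc hz0
  have hcz : 4 * C₁ * z + z ≤ c * z := by linarith
  have hi1 : 1 ≤ i := by
    have h1 := hP.y1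
    have h2 := hS.ya
    omega
  have hCz : 0 ≤ C₁ * z := mul_nonneg hC₁ hz0
  have ejr : ((j - r : ℕ) : ℝ) = j - r := by rw [Nat.cast_sub j1]
  have eia : ((i - a : ℕ) : ℝ) = i - a := by rw [Nat.cast_sub a1]
  have ei1 : ((i - 1 : ℕ) : ℝ) = i - 1 := by rw [Nat.cast_sub hi1, Nat.cast_one]
  have L1 : ∀ l, 1 ≤ l → l ≤ n →
      |(D.g i j l : ℝ) - D.g (i - 1) (j - r) l - (1 + sg gam l * r) * z| ≤ 2 * C₁ * z := by
    intro l l1 ln
    have h := lv_ok hO hlam (i₁ := i) (j₁ := j) (i₂ := i - 1) (j₂ := j - r) (by omega) (by omega)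
      (by omega) (by omega) l1 ln
    rw [ejr, ei1, ← sg_eq hS.g3 l1 ln] at h
    rw [show (i : ℝ) - (i - 1) + sg gam l * (j - (j - r)) = 1 + sg gam l * r by ring] at h
    exact h
  have L2 : ∀ l, 1 ≤ l → l ≤ n →
      |(D.g i j l : ℝ) - D.g (i - a) j l - (a : ℝ) * z| ≤ 2 * C₁ * z := by
    intro l l1 ln
    have h := lv_ok hO hlam (i₁ := i) (j₁ := j) (i₂ := i - a) (j₂ := j) (by omega) (by omega)
      (by omega) (by omega) l1 ln
    rw [eia] at h
    rw [show (i : ℝ) - (i - a) + gam l * (j - j) = a by ring] at h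
    exact h
  have g0 : D.g i j 0 = w₀ + j * z := hO.g_zero i j
  have g1 : D.g (i - 1) (j - r) 0 = w₀ + (j - r) * z := hO.g_zero (i - 1) (j - r)
  have g2 : D.g (i - a) j 0 = w₀ + j * z := hO.g_zero (i - a) j
  have ej : (j - r) * z + r * z = j * z := by
    rw [← add_mul]
    congr 1
    omega
  have mz : ∀ {x y : ℝ}, x ≤ y → x * z ≤ y * z := fun h => mul_le_mul_of_nonneg_right h hz0
  have yr : (y : ℝ) ≤ r := by
    rw [hS.er]
    push_cast
    have : (0 : ℝ) ≤ y := Nat.cast_nonneg y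
    linarith
  have t1 : D.g (i - 1) (j - r) 0 + r * z = D.g i j 0 := by
    rw [g0, g1]
    omega
  refine ⟨t1, by rw [g0, g2], hS.ya, ?_, ?_, ?_, ?_⟩
  · intro l l1 ln
    have e1 := (abs_le.1 (L1 l l1 ln)).2
    have e2 : ((sg gam l : ℝ) * r + y) * z ≤ (((sg gam l : ℝ) + 1) * r) * z := mz (by linarith)
    have e3 : (D.g i j l : ℝ) + y * z ≤
        D.g (i - 1) (j - r) l + (sg gam l + 1) * (r * z) + c * z := by linarith
    exact_mod_cast e3
  · intro l l1 ln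
    have e1 := (abs_le.1 (L2 l l1 ln)).1
    have e3 : (D.g (i - a) j l : ℝ) + a * z ≤ D.g i j l + c * z := by linarith
    exact_mod_cast e3
  · intro l l1 ln
    have e1 := (abs_le.1 (L2 l l1 ln)).2
    have e3 : (D.g i j l : ℝ) ≤ D.g (i - a) j l + a * z + c * z := by linarith
    exact_mod_cast e3
  · intro l k m l1 ln k1 kn hm
    have e1 := (abs_le.1 (L1 l l1 ln)).2
    have e2 := (abs_le.1 (L1 k k1 kn)).1
    have hm' : (sg gam l : ℝ) + 1 ≤ sg gam k + m := by exact_mod_cast hm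
    have r0 : (0 : ℝ) ≤ r := Nat.cast_nonneg r
    have e3 : ((sg gam l : ℝ) * r + y) * z ≤ ((sg gam k : ℝ) * r + m * r) * z := mz (by
      have h3 : ((sg gam l : ℝ) + 1) * r ≤ (sg gam k + m) * r :=
        mul_le_mul_of_nonneg_right hm' r0
      linarith)
    have e5 : (D.g (i - 1) (j - r) 0 : ℝ) + r * z = D.g i j 0 := by exact_mod_cast t1
    have e6 : (m : ℝ) * D.g i j 0 = m * D.g (i - 1) (j - r) 0 + m * (r * z) := by
      rw [← e5]
      ring
    have e4 : (D.g (i - 1) (j - r) k : ℝ) + m * D.g (i - 1) (j - r) 0 + D.g i j l + y * z ≤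
        D.g i j k + m * D.g i j 0 + D.g (i - 1) (j - r) l + c * z := by
      rw [e6]
      linarith
    exact_mod_cast e4

theorem lvE_of (hO : D.Ok2 n K J a₀ w₀ z M lam gam κ C₁ q)
    (hlam : ∀ l, 1 ≤ l → l ≤ n → lam l = 1) (hC₁ : 0 ≤ C₁) {c : ℕ} (hc : 4 * C₁ + 1 ≤ c)
    {y r r2 r' r'' a i j : ℕ} (hP : Plc n gam y r r2 r' r'' a M i j) {e o : ℕ} (he : i + e ≤ M)
    (heo : ∀ s ≤ 2, s * r + y ≤ e + (s - o) * r) :
    LvE n c y z r o (sg gam) (D.g i j) (D.g (i + e) (j - r)) := by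
  have hz0 : (0 : ℝ) ≤ z := Nat.cast_nonneg z
  have hS := hP.stp
  have j1 := hP.j1
  have j2 := hP.j2
  have hcz' : (4 * C₁ + 1) * z ≤ c * z := mul_le_mul_of_nonneg_right hc hz0
  have hcz : 4 * C₁ * z + z ≤ c * z := by linarith
  have hCz : 0 ≤ C₁ * z := mul_nonneg hC₁ hz0
  have ejr : ((j - r : ℕ) : ℝ) = j - r := by rw [Nat.cast_sub j1]
  intro l l1 ln
  have h := lv_ok hO hlam (i₁ := i) (j₁ := j) (i₂ := i + e) (j₂ := j - r) (by omega) (by omega)
    he (by omega) l1 ln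
  rw [ejr, ← sg_eq hS.g3 l1 ln] at h
  push_cast at h
  rw [show (i : ℝ) - (i + e) + sg gam l * (j - (j - r)) = -(e : ℝ) + sg gam l * r by ring] at h
  have e1 := (abs_le.1 h).2
  have e2 : ((sg gam l * r + y : ℕ) : ℝ) ≤ ((e + (sg gam l - o) * r : ℕ) : ℝ) := by
    exact_mod_cast heo _ (sg_le gam l)
  push_cast at e2
  have e3 := mul_le_mul_of_nonneg_right e2 hz0
  have e4 : (D.g i j l : ℝ) + y * z ≤
      D.g (i + e) (j - r) l + ((sg gam l - o : ℕ) : ℝ) * (r * z) + c * z := by linarith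
  exact_mod_cast e4

/-- Combinations of the path of a sample in the chart of a system near to the label at `(i, j)`. -/
theorem comb_box (hO : D.Ok2 n K J a₀ w₀ z M lam gam κ C₁ q) {K₂ : ℕ} (hK : K ≤ K₂) {P : ℕ → PN}
    (hP : TriN P) (dP : ∀ l, (P l).totalDegree ≤ K₂) {i j : ℕ} (hi : i ≤ M) (hj : j ≤ M) {E : ℝ}
    (hE : exp z ≤ E) {Ct : ℝ} (hCt : ∀ (x : Fin 4 → ℝ) (L : ℝ) (d : ℕ) (lam : Fin 4 → ℝ),
      Wt x L d lam → (∀ i, 0 ≤ x i ∧ x i ≤ 1) → ∀ (Q : Polynomial ℝ) (t₀ h ρ A : ℝ),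
      Q.natDegree ≤ (K₂ + 1) * (K + 1) → 0 ≤ h → 0 < ρ → h ≤ ρ →
      (∀ t, t₀ ≤ t → t ≤ t₀ + ρ → |Q.eval t| ≤ A) →
      |∑ i, lam i * Q.eval (t₀ + x i * h)| ≤ Ct * L * A * (h / ρ) ^ d)
    {ω : D.Ω} (hω : PthC D n w₀ z M 1 ω)
    (near : ∀ l ≤ n, nrm (D.g i j) (1 / 2) (chr P (D.Φ i j ω l - P l)) ≤ E / 2 ^ D.g i j l)
    {w : ℕ} (hw : w ≤ J) (hjw : w₀ + j * z ≤ w) {l : ℕ} (hl : l ≤ n) {x mu : Fin 4 → ℝ} {L : ℝ}
    {d : ℕ} (hwt : Wt x L d mu) (hx : ∀ i, 0 ≤ x i ∧ x i ≤ 1) :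
    |∑ k, mu k * zs P (pp D (D.ln ω) (t0 D J w ω + x k * (1 / 2 ^ w))) l| ≤
      Ct * L * ((4 * E) ^ dd (K₂ * (K₂ + 1) ^ n) n / 2 ^ D.g i j l) *
        (1 / 2 ^ (w - (w₀ + j * z))) ^ d := by
  obtain ⟨R, hR, hRe⟩ := path_pol (K := K) (K' := K₂) hO.pa_deg dP (D.ln ω) l
  obtain ⟨r0, r1, rX⟩ := tms hO hw ω
  have e1 : (1 / 2 ^ w : ℝ) / (1 / 2 ^ (w₀ + j * z)) = 1 / 2 ^ (w - (w₀ + j * z)) := by
    have h3 : (2 : ℝ) ^ w = 2 ^ (w - (w₀ + j * z)) * 2 ^ (w₀ + j * z) := by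
      rw [← pow_add]
      congr 1
      omega
    rw [h3]
    field_simp
  have h := hCt x L d mu hwt hx R (t0 D J w ω) (1 / 2 ^ w) (1 / 2 ^ (w₀ + j * z))
    ((4 * E) ^ dd (K₂ * (K₂ + 1) ^ n) n / 2 ^ D.g i j l) hR (by positivity) (by positivity)
    (one_div_le_one_div_of_le (by positivity) (pow_le_pow_right₀ one_le_two hjw))
    (fun t t1 t2 => by
      rw [hRe]
      refine in_box hO hK hP dP hi hj hE hω near ?_ l hl
      have h3 : rt D J w ω * (1 / 2 ^ w) ≤ 1 / 2 ^ (w₀ + j * z) := by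
        calc rt D J w ω * (1 / 2 ^ w) ≤ 1 * (1 / 2 ^ w) :=
              mul_le_mul_of_nonneg_right r1 (by positivity)
          _ = 1 / 2 ^ w := one_mul _
          _ ≤ _ := one_div_le_one_div_of_le (by positivity) (pow_le_pow_right₀ one_le_two hjw)
      have h4 : 0 ≤ rt D J w ω * (1 / 2 ^ w) := by positivity
      rw [abs_le]
      constructor <;> linarith)
  rw [e1] at h
  simp only [hRe] at h
  exact h

end

/-! ### The combinations -/

/-- The nodes. -/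
noncomputable def nd (s : ℝ) : Fin 4 → ℝ := ![0, 1 / 2, 1, s]

theorem nd_mem {s : ℝ} (s0 : 0 ≤ s) (s1 : s ≤ 1) (i : Fin 4) : 0 ≤ nd s i ∧ nd s i ≤ 1 := by
  unfold nd
  fin_cases i
  · simp
  · constructor
    · norm_num
    · norm_num
  · simp
  · exact ⟨s0, s1⟩

theorem wt_of {s L a b c e : ℝ} {d : ℕ} (hd : d ≤ 3) (hL : |a| + |b| + |c| + |e| ≤ L)
    (h0 : 1 ≤ d → a + b + c + e = 0) (h1 : 2 ≤ d → b * (1 / 2) + c + e * s = 0)
    (h2 : 3 ≤ d → b * (1 / 4) + c + e * s ^ 2 = 0) : Wt (nd s) L d ![a, b, c, e] := by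
  refine ⟨?_, fun p hp => ?_⟩
  · rw [Fin.sum_univ_four]
    simpa using hL
  · have h : ∀ t : ℝ, p.eval t = ∑ m ∈ range d, p.coeff m * t ^ m := fun t =>
      Polynomial.eval_eq_sum_range' hp t
    rw [Fin.sum_univ_four]
    unfold nd
    simp only [Matrix.cons_val_zero, Matrix.cons_val_one, Matrix.cons_val_two,
      Matrix.cons_val_three, Matrix.head_cons, Matrix.tail_cons, h]
    interval_cases d
    · exact absurd hp (Nat.not_lt_zero _)
    · have a0 := h0 le_rfl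
      simp only [Finset.sum_range_succ, Finset.sum_range_zero, pow_zero, mul_one, zero_add]
      linear_combination p.coeff 0 * a0
    · have a0 := h0 (by norm_num)
      have a1 := h1 le_rfl
      simp only [Finset.sum_range_succ, Finset.sum_range_zero, pow_zero, mul_one, zero_add,
        pow_one]
      linear_combination p.coeff 0 * a0 + p.coeff 1 * a1
    · have a0 := h0 (by norm_num)
      have a1 := h1 (by norm_num)
      have a2 := h2 le_rfl
      simp only [Finset.sum_range_succ, Finset.sum_range_zero, pow_zero, mul_one, zero_add,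
        pow_one]
      linear_combination p.coeff 0 * a0 + p.coeff 1 * a1 + p.coeff 2 * a2

end Pool.P5N
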